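import Pool.Agent.Helper83.AS.Alg

/-! # Abelian groups which are unions of pure finitely generated subgroups -/

set_option autoImplicit false

open scoped Pointwise

namespace Pool.Agent.Helper83.OD

universe v

variable {A B C : Type v} [AddCommGroup A] [AddCommGroup B] [AddCommGroup C]

/-- If `A` is the directed union of finitely generated subgroups `S i` with torsion free quotients `A / S i`, and
`A / 2 A` is finite, then `A` is finitely generated. -/
theorem finite_of_directed {ι : Type*} [Nonempty ι] (S : ι → Submodule ℤ A)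
    (hdir : Directed (· ≤ ·) S) (hcov : ∀ x, ∃ i, x ∈ S i) (hfg : ∀ i, (S i).FG)
    (hpure : ∀ i (N : ℕ), 0 < N → ∀ x, N • x ∈ S i → x ∈ S i)
    (F : Set A) (hF : F.Finite) (hA : ∀ x, ∃ f ∈ F, ∃ y, x = f + 2 • y) : Module.Finite ℤ A := by
  -- a member of the family which contains `F`
  have h1 : ∃ i, F ⊆ S i := by
    have h2 : Directed (· ⊆ ·) fun i => (S i : Set A) := hdir
    obtain ⟨s, rfl⟩ := hF.exists_finset_coe
    exact h2.exists_mem_subset_of_finset_subset_biUnion fun x _ => Set.mem_iUnion.2 (hcov x)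
  obtain ⟨i, hi⟩ := h1
  have h2 : ∀ x, x ∈ S i := by
    intro x
    obtain ⟨k, hk⟩ := hcov x
    obtain ⟨l, hil, hkl⟩ := hdir i k
    have h3 : S l ≤ S i ⊔ (Ideal.span {(2 : ℤ)}) • S l := by
      intro y hy
      obtain ⟨f, hf, z, rfl⟩ := hA y
      refine Submodule.add_mem_sup (hi hf) ?_
      have h4 : 2 • z ∈ S l := by
        have h5 := (S l).sub_mem hy (hil (hi hf))
        rwa [add_sub_cancel_left] at h5
      have h5 : z ∈ S l := hpure l 2 (by norm_num) z h4
      have h6 : (2 : ℕ) • z = (2 : ℤ) • z := by norm_cast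
      rw [h6]
      exact Submodule.smul_mem_smul (Ideal.mem_span_singleton_self _) h5
    obtain ⟨r, hr, hle⟩ := Submodule.exists_sub_one_mem_and_smul_le_of_fg_of_le_sup (hfg l) le_rfl h3
    have hr1 : r ≠ 0 := by
      rintro rfl
      rw [Ideal.mem_span_singleton] at hr
      omega
    have h5 : r • x ∈ S i := hle (Submodule.smul_mem_pointwise_smul x r _ (hkl hk))
    apply hpure i r.natAbs (Int.natAbs_pos.mpr hr1)
    rcases Int.natAbs_eq r with h6 | h6
    · rw [h6, natCast_zsmul] at h5; exact h5
    · rw [h6, neg_smul, natCast_zsmul] at h5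
      have h7 := (S i).neg_mem h5
      rwa [neg_neg] at h7
  have h3 : S i = ⊤ := eq_top_iff.2 fun x _ => h2 x
  exact ⟨h3 ▸ hfg i⟩

/-- a subgroup of a group, mapped with finite kernel to a finitely generated group -/
theorem fg_of_map {m : ℕ} (K : Submodule ℤ A) (L : Submodule ℤ B) (p : A →+ B) (q : B →+ A) (hL : L.FG)
    (hp : ∀ x ∈ K, p x ∈ L) (h : ∀ x, q (p x) = m • x) (ht : {x : A | m • x = 0}.Finite) : K.FG := by
  let p' : K →ₗ[ℤ] L := p.toIntLinearMap.restrict hp
  have hL' : Module.Finite ℤ L := Module.Finite.iff_fg.2 hL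
  have h1 : (LinearMap.ker p' : Set K) ⊆ {x : K | m • x = 0} := by
    intro x hx
    have hx0 : p x.1 = 0 := congrArg Subtype.val (show p' x = 0 from hx)
    apply Subtype.ext
    change m • x.1 = 0
    rw [← h x.1, hx0, map_zero]
  have h2 : (LinearMap.ker p').FG := by
    have hf : {x : K | m • x = 0}.Finite := by
      refine Set.Finite.of_finite_image (f := Subtype.val) (ht.subset ?_) Subtype.val_injective.injOn
      rintro _ ⟨x, hx, rfl⟩
      exact congrArg Subtype.val (show m • x = 0 from hx)
    have hf' : (LinearMap.ker p' : Set K).Finite := hf.subset h1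
    exact ⟨hf'.toFinset, by simp⟩
  have h3 : (LinearMap.range p').FG := IsNoetherian.noetherian _
  have h4 : Module.Finite ℤ K := ⟨Submodule.fg_of_fg_map_of_fg_inf_ker p' (by rwa [← LinearMap.range_eq_map])
    (by rwa [top_inf_eq])⟩
  exact Module.Finite.iff_fg.1 h4

/-- a finitely generated divisible group is zero -/
theorem subsingleton_of_divisible (hA : Module.Finite ℤ A)
    (h : ∀ m : ℕ, 0 < m → Function.Surjective fun x : A => m • x) : Subsingleton A := by
  have h1 : (⊤ : Submodule ℤ A) ≤ (Ideal.span {(2 : ℤ)}) • (⊤ : Submodule ℤ A) := by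
    intro x _
    obtain ⟨y, hy⟩ := h 2 (by norm_num) x
    have : x = (2 : ℤ) • y := by rw [← hy]; norm_cast
    rw [this]
    exact Submodule.smul_mem_smul (Ideal.mem_span_singleton_self _) trivial
  obtain ⟨r, hr, hr0⟩ := Submodule.exists_sub_one_mem_and_smul_eq_zero_of_fg_of_le_smul
    (Ideal.span {(2 : ℤ)}) (⊤ : Submodule ℤ A) Module.Finite.fg_top h1
  have hr1 : r ≠ 0 := by
    rintro rfl
    rw [Ideal.mem_span_singleton] at hr
    omega
  have key : ∀ x : A, x = 0 := by
    intro x
    obtain ⟨y, hy⟩ := h r.natAbs (Int.natAbs_pos.mpr hr1) x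
    rw [← hy]
    have h2 : r • y = 0 := hr0 y trivial
    change r.natAbs • y = 0
    rcases Int.natAbs_eq r with h3 | h3
    · rw [h3, natCast_zsmul] at h2; exact h2
    · rw [h3, neg_smul, natCast_zsmul, neg_eq_zero] at h2; exact h2
  exact ⟨fun x y => by rw [key x, key y]⟩

end Pool.Agent.Helper83.OD
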