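import Pool.Agent.Helper83.AS.Defs

/-!
# Étale motivic Borel-Moore homology of arithmetic schemes in the weight zero: the setting

The schemes are Mathlib's schemes. The groups `T.BM X j = H_j(X_et, ℤᶜ(0))` are a datum; their known
properties are listed in `Theory.Standard`. Facts about schemes themselves are closed propositions, listed
in `Geometry`. The class `Arithmetic X d` (regular, integral, proper over `ℤ`, of Krull dimension `d`) and
`FiniteType X` (separated and of finite type over `ℤ`) are defined in `Pool/Agent/Helper83/AS/Defs.lean`.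
-/

set_option autoImplicit false

open CategoryTheory CategoryTheory.Limits AlgebraicGeometry

namespace Pool.Agent.Helper83.OD

open Pool.Agent.Helper83.AS (FiniteType Arithmetic product)

universe v

/-! ## Abelian groups -/

/-- `A` is a torsion group -/
abbrev IsTorsion (A : Type v) [AddCommGroup A] : Prop := ∀ x : A, ∃ N : ℕ, 0 < N ∧ N • x = 0

/-- `A` is divisible -/
abbrev IsDivisible (A : Type v) [AddCommGroup A] : Prop :=
  ∀ N : ℕ, 0 < N → Function.Surjective fun x : A => N • x

/-- `A` is torsion free -/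
abbrev IsTorsionFree (A : Type v) [AddCommGroup A] : Prop :=
  ∀ N : ℕ, 0 < N → Function.Injective fun x : A => N • x

/-- the multiplication by every `N > 0` on `A` has a finite kernel and a finite cokernel -/
abbrev FiniteTorsion (A : Type v) [AddCommGroup A] : Prop :=
  ∀ N : ℕ, 0 < N → {x : A | N • x = 0}.Finite ∧ ∃ F : Set A, F.Finite ∧ ∀ x, ∃ f ∈ F, ∃ y, x = f + N • y

/-- the sequence `A ⟶ B ⟶ C` is exact at `B` -/
abbrev IsExact {A B C : Type v} [AddCommGroup A] [AddCommGroup B] [AddCommGroup C] (f : A →+ B) (g : B →+ C) :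
    Prop := Function.Exact f g

/-! ## Schemes -/

/-- the subsets of the underlying topological space of `X` -/
abbrev Subset (X : Scheme.{0}) : Type := Set X

/-- the image of a morphism -/
abbrev image {X Y : Scheme.{0}} (f : X ⟶ Y) : Subset Y := Set.range f

/-- the preimage of a subset -/
abbrev preimage {X Y : Scheme.{0}} (f : X ⟶ Y) (S : Subset Y) : Subset X := f ⁻¹' S

/-- `X` is a scheme over the ring of Gaussian integers (so it has no real points) -/
def Imaginary (X : Scheme.{0}) : Prop := Nonempty (X ⟶ Spec (.of GaussianInt))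

/-- the subset `C` of `X` is the disjoint union of finitely many closed subschemes of `X` which are regular,
integral and proper over `ℤ`, of dimension `e`. (If `e < 0` this means that `C` is empty.) -/
def Pieces (X : Scheme.{0}) (C : Subset X) (e : ℤ) : Prop :=
  ∃ (n : ℕ) (Z : _root_.Fin n → Scheme.{0}) (i : ∀ k, Z k ⟶ X),
    (∀ k, IsClosedImmersion (i k) ∧ ∃ e' : ℕ, (e' : ℤ) = e ∧ Arithmetic (Z k) e') ∧
    (Pairwise fun k l => Disjoint (image (i k)) (image (i l))) ∧ C = ⋃ k, image (i k)

/-- `f : X' ⟶ X` is an alteration over the Gaussian integers such that the preimage of the subset `W` of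
`X` is contained in a divisor with strict normal crossings, with components `E k`, and `Y` is an ample
regular divisor of `X'` which meets all the strata transversally: `X' ∖ Y` is affine, the intersections of `a`
of the `E k`, `a ≥ 1`, are regular of dimension `d - a`, and their intersections with `Y` are regular of
dimension `d - a - 1`. (The base extension to the ring of integers of a number field over which there is
such a divisor `Y` is a part of the alteration `f`.) -/
structure IsResolution {X X' : Scheme.{0}} (d : ℕ) (W : Subset X) (f : X' ⟶ X) (r : ℕ)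
    (E : _root_.Fin r → Subset X') (Y : Subset X') : Prop where
  arithmetic : Arithmetic X' d
  imaginary : Imaginary X'
  surjective : Surjective f
  closed : ∀ k, IsClosed (E k)
  subset : preimage f W ⊆ ⋃ k, E k
  affine : ∃ U : X'.Opens, IsAffineOpen U ∧ (U : Subset X') = Yᶜ
  strata : ∀ I : Finset (_root_.Fin r), I.Nonempty → Pieces X' (⋂ k ∈ I, E k) (d - I.card)
  sections : ∀ I : Finset (_root_.Fin r), Pieces X' ((⋂ k ∈ I, E k) ∩ Y) (d - I.card - 1)

/-- `X` is a scheme over a prime field of positive characteristic (a scheme in the class of Q1 is then a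
connected smooth proper scheme over a finite field) -/
def Positive (X : Scheme.{0}) : Prop := ∃ p : ℕ, p.Prime ∧ Nonempty (X ⟶ Spec (.of (ZMod p)))

/-- the subset `Y` of `X'` meets the closed subscheme `i : C ⟶ X'` of dimension `e` in one regular closed
subscheme of dimension `e - 1` if `e ≥ 2`, and it meets it at all if `e = 1` -/
structure Meets {C X' : Scheme.{0}} (i : C ⟶ X') (Y : Subset X') (e : ℕ) : Prop where
  curve : e = 1 → (preimage i Y).Nonempty
  higher : ∀ e' : ℕ, 0 < e' → e = e' + 1 → ∃ (D : Scheme.{0}) (a : D ⟶ C), IsClosedImmersion a ∧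
    Arithmetic D e' ∧ image a = preimage i Y

/-- the analogue in positive characteristic: `f : X' ⟶ X` is an alteration, the preimage of `W` is contained
in the divisor with strict normal crossings with components `E k`, and `Y` is an ample regular divisor which
meets all strata transversally; by Bertini its intersection with a connected component of a stratum is
again connected (dimension `≥ 2`) or not empty (dimension `1`) -/
structure IsResolutionP {X X' : Scheme.{0}} (d : ℕ) (W : Subset X) (f : X' ⟶ X) (r : ℕ)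
    (E : _root_.Fin r → Subset X') (Y : Subset X') : Prop where
  arithmetic : Arithmetic X' d
  surjective : Surjective f
  closed : ∀ k, IsClosed (E k)
  subset : preimage f W ⊆ ⋃ k, E k
  divisor : Pieces X' Y (d - 1)
  strata : ∀ I : Finset (_root_.Fin r), I.Nonempty → ∃ (n : ℕ) (C : _root_.Fin n → Scheme.{0})
    (i : ∀ l, C l ⟶ X'), (∀ l, IsClosedImmersion (i l) ∧ ∃ e : ℕ, (e : ℤ) = d - I.card ∧
      Arithmetic (C l) e ∧ Meets (i l) Y e) ∧
    (Pairwise fun l l' => Disjoint (image (i l)) (image (i l'))) ∧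
    (⋂ k ∈ I, E k) = ⋃ l, image (i l)

/-- Facts about schemes (closed propositions). -/
structure Geometry : Prop where
  /-- alterations (de Jong) with a theorem of Bertini -/
  resolution : ∀ {X : Scheme.{0}} {d : ℕ}, Arithmetic X d → ∀ W : Subset X, IsClosed W → W ≠ Set.univ →
    ∃ (X' : Scheme.{0}) (f : X' ⟶ X) (r : ℕ) (E : _root_.Fin r → Subset X') (Y : Subset X'),
      IsResolution d W f r E Y
  /-- alterations (de Jong) with a theorem of Bertini, in positive characteristic -/
  resolutionP : ∀ {X : Scheme.{0}} {d : ℕ}, Arithmetic X d → Positive X → ∀ W : Subset X, IsClosed W →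
    W ≠ Set.univ → ∃ (X' : Scheme.{0}) (f : X' ⟶ X) (r : ℕ) (E : _root_.Fin r → Subset X') (Y : Subset X'),
      IsResolutionP d W f r E Y
  /-- if `X` is regular, integral and proper over `ℤ`, so is `ℙ^N × X`, and its dimension is `N + dim X` -/
  product : ∀ {X : Scheme.{0}} {d : ℕ}, Arithmetic X d → ∀ N : ℕ, Arithmetic (product N X) (d + N)

/-! ## Homology -/

/-- Data: the étale motivic Borel-Moore homology groups `BM X j = H_j(X_et, ℤᶜ(0))` of the separated schemes
of finite type over `ℤ`, in the weight `0`, with the restriction maps to open subschemes. The complex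
`ℤᶜ(0)` is the étale cycle complex of the zero-cycles. If `X` is regular of dimension `d` these are the cycles
of codimension `d`, so `ℤᶜ(0) = ℤ(d)[2d]` and `H_j(X_et, ℤᶜ(0)) = H²ᵈ⁻ʲ(X_et, ℤ(d))`. -/
structure Theory where
  BM : Scheme.{0} → ℤ → Type v
  [group : ∀ X j, AddCommGroup (BM X j)]
  res : ∀ {X U : Scheme.{0}} (u : U ⟶ X) [IsOpenImmersion u] (j : ℤ), BM X j →+ BM U j

attribute [instance] Theory.group

variable (T : Theory.{v})

/-- the étale motivic cohomology `Hⁱ(X_et, ℤ(d))` of a regular scheme `X` of dimension `d` -/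
def Theory.H (X : Scheme.{0}) (d : ℕ) (i : ℤ) : Type v := T.BM X (2 * d - i)

instance (X : Scheme.{0}) (d : ℕ) (i : ℤ) : AddCommGroup (T.H X d i) :=
  inferInstanceAs (AddCommGroup (T.BM X (2 * d - i)))

/-- the homomorphisms `H_j(X) ⟶ H_k(Y)` -/
abbrev Theory.Hom (X Y : Scheme.{0}) (j k : ℤ) : Type v := T.BM X j →+ T.BM Y k

/-- the restriction maps are functorial -/
def Theory.Functorial : Prop :=
  ∀ {X U V : Scheme.{0}} (u : U ⟶ X) (v : V ⟶ U) [IsOpenImmersion u] [IsOpenImmersion v] (j : ℤ),
    T.res (v ≫ u) j = (T.res v j).comp (T.res u j)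

/-- the localization sequence
`⋯ → H_{j+1}(X) → H_{j+1}(U) → H_j(Z) → H_j(X) → H_j(U) → ⋯` of a closed subscheme `Z` and its open complement `U` -/
def Theory.Localization : Prop :=
  ∀ {X Z U : Scheme.{0}} (i : Z ⟶ X) (u : U ⟶ X) [IsOpenImmersion u], FiniteType X → IsClosedImmersion i →
    IsCompl (image i) (image u) →
    ∃ (push : ∀ j : ℤ, T.Hom Z X j j) (δ : ∀ j : ℤ, T.Hom U Z (j + 1) j),
      ∀ j : ℤ, IsExact (push j) (T.res u j) ∧ IsExact (T.res u (j + 1)) (δ j) ∧ IsExact (δ j) (push j)

/-- the groups of a disjoint union -/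
def Theory.Additive : Prop :=
  ∀ {X U V : Scheme.{0}} (u : U ⟶ X) (v : V ⟶ X) [IsOpenImmersion u] [IsOpenImmersion v], FiniteType X →
    IsCompl (image u) (image v) → ∀ j : ℤ,
    Function.Bijective fun x : T.BM X j => (T.res u j x, T.res v j x)

/-- the element `x` of `H_j(X)` is zero on the open subscheme `U` -/
abbrev Theory.ZeroOn {X : Scheme.{0}} {j : ℤ} (x : T.BM X j) (U : X.Opens) : Prop := T.res U.ι j x = 0

/-- pull-back and push-forward along an alteration `f : X' ⟶ X`: their composition is the multiplication by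
the degree; the pull-back is compatible with the restriction to open subschemes -/
def Theory.Alteration : Prop :=
  ∀ {X X' : Scheme.{0}} {d : ℕ} (f : X' ⟶ X), Arithmetic X d → Arithmetic X' d → Surjective f → ∀ j : ℤ,
    ∃ (N : ℕ) (pull : T.Hom X X' j j) (push : T.Hom X' X j j), 0 < N ∧
      ∀ x, push (pull x) = N • x ∧ ∀ U : X.Opens, T.ZeroOn x U → T.ZeroOn (pull x) (f ⁻¹ᵁ U)

/-- in the degrees `i > d` (`j < d`) the rational group `Hⁱ(k(X), ℚ(d))` of the function field is zero: every
element of `H_j(X)` has a multiple which is zero on a nonempty open subscheme -/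
def Theory.Generic : Prop :=
  ∀ {X : Scheme.{0}} {d : ℕ}, Arithmetic X d → ∀ j : ℤ, j < d → ∀ x : T.BM X j,
    ∃ N : ℕ, 0 < N ∧ ∃ U : X.Opens, (U : Subset X).Nonempty ∧ T.ZeroOn (N • x) U

/-- Artin vanishing: an affine open subscheme `U` of a regular scheme `X` of dimension `d` over the Gaussian
integers has `H_j(U; ℤ/N) = H²ᵈ⁻ʲ(U_et, ℤ/N(d)) = 0` for `j ≤ d - 3`; so `H_j(U)` is divisible for `j ≤ d - 3` and torsion
free for `j ≤ d - 4` -/
def Theory.Artin : Prop :=
  ∀ {X : Scheme.{0}} {d : ℕ}, Arithmetic X d → Imaginary X → ∀ U : X.Opens, IsAffineOpen U → ∀ j : ℤ,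
    (j + 3 ≤ d → IsDivisible (T.BM U j)) ∧ (j + 4 ≤ d → IsTorsionFree (T.BM U j))

/-- The known properties of the groups which are used. -/
structure Theory.Standard : Prop where
  empty : ∀ (X : Scheme.{0}), IsEmpty X → ∀ j : ℤ, Subsingleton (T.BM X j)
  functorial : T.Functorial
  localization : T.Localization
  additive : T.Additive
  alteration : T.Alteration
  generic : T.Generic
  artin : T.Artin
  /-- the groups with coefficients `ℤ/N` are finite -/
  torsion : ∀ {X : Scheme.{0}}, FiniteType X → ∀ j : ℤ, FiniteTorsion (T.BM X j)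
  /-- the rational groups are the higher Chow groups `CH_0(X, j) ⊗ ℚ`, which are zero for `j < 0` -/
  top : ∀ {X : Scheme.{0}}, FiniteType X → ∀ j < 0, IsTorsion (T.BM X j)
  /-- `H²ᵈ⁺¹(X_et, ℤ(d))` is finite -/
  finite : ∀ {X : Scheme.{0}} {d : ℕ}, Arithmetic X d → Finite (T.BM X (-1))
  /-- `Hⁱ(X_et, ℤ(d))` is a direct summand of `Hⁱ⁺²ᴺ((ℙ^N × X)_et, ℤ(d + N))` (projective bundle formula) -/
  summand : ∀ {X : Scheme.{0}} {d : ℕ}, Arithmetic X d → ∀ (N : ℕ) (j : ℤ),
    ∃ (s : T.Hom X (product N X) j j) (r : T.Hom (product N X) X j j), ∀ x, r (s x) = x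

/-- Known properties in positive characteristic, `X` regular, connected and proper. -/
structure Theory.FiniteFields : Prop where
  /-- for `i < 2 d` the group `Hⁱ(X_et, ℤ(d))` is the direct sum of a finite group and a rational vector space -/
  fg_iff : ∀ {X : Scheme.{0}} {d : ℕ}, Arithmetic X d → Positive X → ∀ j : ℤ, 0 < j →
    (AddGroup.FG (T.BM X j) ↔ IsTorsion (T.BM X j))
  /-- `H²ᵈ(X_et, ℤ(d))` is finitely generated -/
  fg_zero : ∀ {X : Scheme.{0}} {d : ℕ}, Arithmetic X d → Positive X → AddGroup.FG (T.BM X 0)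
  /-- the degree of zero-cycles `CH_0(X) ⊗ ℚ ≃ ℚ`: the group `CH_0(U) ⊗ ℚ` is zero for an open `U ≠ X` -/
  tors_zero : ∀ {X : Scheme.{0}} {d : ℕ}, Arithmetic X d → Positive X → ∀ U : X.Opens, U ≠ ⊤ →
    IsTorsion (T.BM U 0)
  /-- the same for a closed subscheme `Z` in the class: the map `CH_0(Z) ⊗ ℚ ⟶ CH_0(X) ⊗ ℚ` is injective, so
  every element of `H_1(U)`, `U = X ∖ Z`, has a multiple which comes from `H_1(X)` -/
  extend : ∀ {X Z U : Scheme.{0}} {d e : ℕ} (i : Z ⟶ X) (u : U ⟶ X) [IsOpenImmersion u], Arithmetic X d →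
    Positive X → Arithmetic Z e → IsClosedImmersion i → IsCompl (image i) (image u) →
    ∀ y : T.BM U 1, ∃ N : ℕ, 0 < N ∧ ∃ x, N • y = T.res u 1 x

/-- Q1 for a regular scheme `X` of dimension `d` -/
def Theory.Q1 (X : Scheme.{0}) (d : ℕ) : Prop :=
  ∀ i : ℤ, 0 ≤ i → i ≤ 2 * d → AddGroup.FG (T.H X d i)

end Pool.Agent.Helper83.OD
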