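import Pool.Agent.Helper83.OD.Pieces
import Pool.Agent.Helper83.OD.Alg

/-! # Torsion, divisibility and finite generation -/

set_option autoImplicit false

open CategoryTheory CategoryTheory.Limits AlgebraicGeometry TopologicalSpace Topology

namespace Pool.Agent.Helper83.OD

open Pool.Agent.Helper83.AS (FiniteType Arithmetic product finite_mid finite_of_transfer)

universe v

/-- `H_q(X)` is a torsion group -/
def Theory.Tors (T : Theory.{v}) (q : ℤ) (X : Scheme.{0}) : Prop := ∀ x : T.BM X q, ∃ N : ℕ, 0 < N ∧ N • x = 0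

/-- `H_q(X)` is finitely generated -/
def Theory.Fg (T : Theory.{v}) (q : ℤ) (X : Scheme.{0}) : Prop := Module.Finite ℤ (T.BM X q)

/-- `H_q(X)` is divisible -/
def Theory.Div (T : Theory.{v}) (q : ℤ) (X : Scheme.{0}) : Prop :=
  ∀ N : ℕ, 0 < N → Function.Surjective fun x : T.BM X q => N • x

theorem tors_mid {A B C : Type v} [AddCommGroup A] [AddCommGroup B] [AddCommGroup C] {f : A →+ B} {g : B →+ C}
    (h : Function.Exact f g) (hA : ∀ x : A, ∃ N : ℕ, 0 < N ∧ N • x = 0)
    (hC : ∀ x : C, ∃ N : ℕ, 0 < N ∧ N • x = 0) (x : B) : ∃ N : ℕ, 0 < N ∧ N • x = 0 := by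
  obtain ⟨N, hN, hx⟩ := hC (g x)
  rw [← map_nsmul] at hx
  obtain ⟨a, ha⟩ := (h _).1 hx
  obtain ⟨M, hM, hy⟩ := hA a
  refine ⟨M * N, Nat.mul_pos hM hN, ?_⟩
  rw [mul_nsmul', ← ha, ← map_nsmul, hy, map_zero]

variable {T : Theory.{v}} (hT : T.Standard)

include hT

theorem tors_long : Long T.Tors where
  empty q X hX x := by
    have := hT.empty X hX q
    exact ⟨1, one_pos, Subsingleton.elim _ _⟩
  left i u hX hi hu hc q h h' := by
    obtain ⟨push, δ, hex⟩ := hT.localization i u hX hi hc
    exact tors_mid (hex q).2.2 h h'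
  mid i u hX hi hu hc q h h' := by
    obtain ⟨push, δ, hex⟩ := hT.localization i u hX hi hc
    exact tors_mid (hex q).1 h h'
  right i u hX hi hu hc q h h' := by
    obtain ⟨push, δ, hex⟩ := hT.localization i u hX hi hc
    obtain ⟨j, rfl⟩ : ∃ j, q = j + 1 := ⟨q - 1, by ring⟩
    rw [add_sub_cancel_right] at h'
    exact tors_mid (hex j).2.1 h h'

theorem fg_long : Long T.Fg where
  empty q X hX := by
    have := hT.empty X hX q
    exact Module.Finite.of_finite
  left i u hX hi hu hc q h h' := by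
    obtain ⟨push, δ, hex⟩ := hT.localization i u hX hi hc
    exact finite_mid (hex q).2.2 h h'
  mid i u hX hi hu hc q h h' := by
    obtain ⟨push, δ, hex⟩ := hT.localization i u hX hi hc
    exact finite_mid (hex q).1 h h'
  right i u hX hi hu hc q h h' := by
    obtain ⟨push, δ, hex⟩ := hT.localization i u hX hi hc
    obtain ⟨j, rfl⟩ : ∃ j, q = j + 1 := ⟨q - 1, by ring⟩
    rw [add_sub_cancel_right] at h'
    exact finite_mid (hex j).2.1 h h'

theorem tors_add (q : ℤ) : Add (T.Tors q) where
  inv := (tors_long hT).inv q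
  empty := (tors_long hT).empty q
  add u v _ _ hX hc hU hV x := by
    obtain ⟨N, hN, h1⟩ := hU (T.res u q x)
    obtain ⟨M, hM, h2⟩ := hV (T.res v q x)
    refine ⟨N * M, Nat.mul_pos hN hM, (hT.additive u v hX hc q).1 ?_⟩
    simp only [map_nsmul, map_zero, Prod.mk.injEq]
    exact ⟨by rw [mul_nsmul, h1, smul_zero], by rw [mul_nsmul', h2, smul_zero]⟩

theorem fg_add (q : ℤ) : Add (T.Fg q) where
  inv := (fg_long hT).inv q
  empty := (fg_long hT).empty q
  add u v _ _ hX hc hU hV := by
    let g : T.BM _ q →+ T.BM _ q × T.BM _ q := (T.res u q).prod (T.res v q)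
    have hg : Function.Bijective g := hT.additive u v hX hc q
    have h1 : Module.Finite ℤ (T.BM _ q) := hU
    have h2 : Module.Finite ℤ (T.BM _ q) := hV
    exact Module.Finite.equiv (AddEquiv.ofBijective g hg).symm.toIntLinearEquiv

/-- surjective closed immersions -/
theorem exists_equiv {X Z : Scheme.{0}} (i : Z ⟶ X) (hX : FiniteType X) (hi : IsClosedImmersion i)
    (hs : Function.Surjective i) (q : ℤ) : Nonempty (T.BM Z q ≃+ T.BM X q) := by
  have hc : IsCompl (Set.range i) (Set.range (⊥ : X.Opens).ι) := by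
    rw [hs.range_eq, Scheme.Opens.range_ι]
    exact isCompl_top_bot
  have hE : IsEmpty ((⊥ : X.Opens) : Scheme.{0}) := ⟨fun x => x.2⟩
  obtain ⟨push, δ, hex⟩ := hT.localization i (⊥ : X.Opens).ι hX hi hc
  have h1 := hT.empty _ hE q
  have h2 := hT.empty _ hE (q + 1)
  refine ⟨AddEquiv.ofBijective (push q) ⟨?_, ?_⟩⟩
  · rw [injective_iff_map_eq_zero]
    intro x hx
    obtain ⟨y, rfl⟩ := ((hex q).2.2 x).1 hx
    rw [Subsingleton.elim y 0, map_zero]
  · intro x
    exact ((hex q).1 x).1 (Subsingleton.elim _ _)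

theorem div_add (q : ℤ) : Add (T.Div q) where
  inv := by
    intro X Z i hX hi hs
    obtain ⟨e⟩ := exists_equiv hT i hX hi hs q
    constructor
    · intro h N hN x
      obtain ⟨y, hy⟩ := h N hN (e.symm x)
      exact ⟨e y, by
        change N • e y = x
        rw [← map_nsmul]
        exact (congrArg e hy).trans (e.apply_symm_apply x)⟩
    · intro h N hN x
      obtain ⟨y, hy⟩ := h N hN (e x)
      exact ⟨e.symm y, by
        change N • e.symm y = x
        rw [← map_nsmul]
        exact (congrArg e.symm hy).trans (e.symm_apply_apply x)⟩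
  empty X hX N _ x := by
    have := hT.empty X hX q
    exact ⟨0, Subsingleton.elim _ _⟩
  add u v _ _ hX hc hU hV N hN x := by
    obtain ⟨y, hy⟩ := hU N hN (T.res u q x)
    obtain ⟨z, hz⟩ := hV N hN (T.res v q x)
    obtain ⟨w, hw⟩ := (hT.additive u v hX hc q).2 (y, z)
    refine ⟨w, (hT.additive u v hX hc q).1 ?_⟩
    have h1 : T.res u q w = y := congrArg Prod.fst hw
    have h2 : T.res v q w = z := congrArg Prod.snd hw
    simp only [map_nsmul, h1, h2]
    exact Prod.ext hy hz

end Pool.Agent.Helper83.OD
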