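import Pool.Agent.Helper83.OD.Pos

/-! # One degree -/

set_option autoImplicit false

open CategoryTheory CategoryTheory.Limits AlgebraicGeometry TopologicalSpace Topology

namespace Pool.Agent.Helper83.OD

open Pool.Agent.Helper83.AS (FiniteType Arithmetic product finite_mid finite_of_transfer fg_iff)

universe v

variable {T : Theory.{v}}

theorem fg_H {X : Scheme.{0}} {d : ℕ} {i j : ℤ} (h : 2 * (d : ℤ) - i = j) :
    AddGroup.FG (T.H X d i) ↔ T.Fg j X := by
  subst h
  exact fg_iff

variable (hT : T.Standard)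

include hT

theorem fg_of_product {X : Scheme.{0}} {d : ℕ} (hX : Arithmetic X d) (N : ℕ) {j : ℤ}
    (h : T.Fg j (product N X)) : T.Fg j X := by
  obtain ⟨s, r, hr⟩ := hT.summand hX N j
  have h' : Module.Finite ℤ (T.BM (product N X) j) := h
  exact Module.Finite.of_surjective r.toIntLinearMap fun x => ⟨s x, hr x⟩

/-- the degrees from one dimension for every codegree -/
theorem fg_all (hG : Geometry) (D : ℕ → ℕ) (hD : ∀ t, t + 3 ≤ D t) (T₀ : ℕ)
    (h : ∀ t ≤ T₀, ∀ X : Scheme.{0}, Arithmetic X (D t) → T.Fg t X) :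
    ∀ (d : ℕ) (j : ℤ), 0 ≤ j → j ≤ T₀ → ∀ X : Scheme.{0}, Arithmetic X d → T.Fg j X := by
  intro d
  induction d using Nat.strong_induction_on with
  | _ d ih =>
    intro j hj0 hj X hX
    obtain ⟨t, rfl⟩ := Int.eq_ofNat_of_zero_le hj0
    have ht : t ≤ T₀ := by exact_mod_cast hj
    rcases le_or_gt d (D t) with hd | hd
    · obtain ⟨N, hN⟩ := Nat.exists_eq_add_of_le hd
      refine fg_of_product hT hX N (h t ht _ ?_)
      rw [hN]
      exact hG.product hX N
    · have h1 := hD t
      refine fg_step hT hG hX (fun e he q hq0 hqj _ Z hZ => ih e he q hq0 (by omega) Z hZ) hj0 (by omega)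

/-- the same in positive characteristic -/
theorem fg_positive (hF : T.FiniteFields) (hG : Geometry) (D : ℕ → ℕ) (hD : ∀ t, t + 1 ≤ D t) (T₀ : ℕ)
    (h : ∀ t ≤ T₀, 1 ≤ t → ∀ X : Scheme.{0}, Arithmetic X (D t) → Positive X → T.Fg t X) :
    ∀ (d : ℕ) (j : ℤ), 0 ≤ j → j ≤ T₀ → ∀ X : Scheme.{0}, Arithmetic X d → Positive X → T.Fg j X := by
  intro d
  induction d using Nat.strong_induction_on with
  | _ d ih =>
    intro j hj0 hj X hX hp
    obtain ⟨t, rfl⟩ := Int.eq_ofNat_of_zero_le hj0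
    have ht : t ≤ T₀ := by exact_mod_cast hj
    rcases Nat.eq_zero_or_pos t with rfl | ht1
    · exact fg_iff.1 (hF.fg_zero hX hp)
    rcases le_or_gt d (D t) with hd | hd
    · obtain ⟨N, hN⟩ := Nat.exists_eq_add_of_le hd
      refine fg_of_product hT hX N (h t ht ht1 _ ?_ (hp.of_hom (pullback.snd _ _)))
      rw [hN]
      exact hG.product hX N
    · have h1 := hD t
      have h2 := tors_step hT hF hG hX hp (j := t) (fun e he q _ hqj _ Z hZ hZp =>
        (hF.fg_iff hZ hZp q (by omega)).1 (fg_iff.2 (ih e he q (by omega) (by omega) Z hZ hZp)))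
        (by omega) (by omega)
      exact fg_iff.1 ((hF.fg_iff hX hp t (by omega)).2 h2)

/-- integral Artin vanishing -/
theorem subsingleton_open {X Y : Scheme.{0}} {d : ℕ} (hX : Arithmetic X d) (hXi : Imaginary X) (a : Y ⟶ X)
    (ha : IsClosedImmersion a) {e : ℕ} (_ : d = e + 1) (hY : Arithmetic Y e) {U : X.Opens} (hU : IsAffineOpen U)
    (hc : IsCompl (Set.range a) (Set.range U.ι)) {j : ℤ} (hj0 : 0 ≤ j) (hj : j + 3 ≤ d)
    (h : T.Fg j X) (h' : 1 ≤ j → T.Fg (j - 1) Y) : Subsingleton (T.BM U j) := by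
  have h1 : T.Fg (j - 1) Y := by
    rcases eq_or_lt_of_le hj0 with rfl | h1
    · have : Finite (T.BM Y (-1)) := hT.finite hY
      exact Module.Finite.of_finite (M := T.BM Y (-1))
    · exact h' h1
  exact subsingleton_of_divisible ((fg_long hT).right a U.ι hX.finiteType ha inferInstance hc j h h1)
    ((hT.artin hX hXi U hU j).1 hj)

end Pool.Agent.Helper83.OD
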