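import Pool.Agent.Helper83.OD.Sch

/-! # Disjoint unions -/

set_option autoImplicit false

open CategoryTheory CategoryTheory.Limits AlgebraicGeometry TopologicalSpace Topology

namespace Pool.Agent.Helper83.OD

open Pool.Agent.Helper83.AS (FiniteType Arithmetic product)

/-- an additive property -/
structure Add (P : Scheme.{0} → Prop) : Prop where
  inv : Inv P
  empty : ∀ X : Scheme.{0}, IsEmpty X → P X
  add : ∀ {X U V : Scheme.{0}} (u : U ⟶ X) (v : V ⟶ X), IsOpenImmersion u → IsOpenImmersion v → FiniteType X →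
    IsCompl (Set.range u) (Set.range v) → P U → P V → P X

theorem Inv.iso {P : Scheme.{0} → Prop} (hP : Inv P) {X Y : Scheme.{0}} (hX : FiniteType X) (f : Y ⟶ X)
    (hf : IsIso f) : P Y ↔ P X :=
  hP f hX inferInstance (isIso_iff_isOpenImmersion_and_surjective f |>.1 hf).2.surj

theorem isIso_of {X Y : Scheme.{0}} (f : Y ⟶ X) (hf : IsOpenImmersion f) (hs : Function.Surjective f) : IsIso f :=
  (isIso_iff_isOpenImmersion_and_surjective f).2 ⟨hf, ⟨hs⟩⟩

theorem Add.on_disjoint {P : Scheme.{0} → Prop} (hP : Add P) {X : Scheme.{0}} (hX : FiniteType X) {C C' : Set X}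
    (hC : IsClosed C) (hC' : IsClosed C') (hd : Disjoint C C') (h : On P X C) (h' : On P X C') :
    On P X (C ∪ C') := by
  intro Z i hi hr
  have hZ := hX.of_closed i hi
  have hcompl : (i ⁻¹' C)ᶜ = i ⁻¹' C' := by
    ext z
    have h1 : i z ∈ C ∪ C' := by rw [← hr]; exact Set.mem_range_self z
    simp only [Set.mem_compl_iff, Set.mem_preimage]
    exact ⟨fun h2 => h1.resolve_left h2, fun h2 h3 => Set.disjoint_left.1 hd h3 h2⟩
  have ho' : IsOpen (i ⁻¹' C') := by rw [← hcompl]; exact (hC.preimage i.continuous).isOpen_compl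
  have ho : IsOpen (i ⁻¹' C) := by rw [← compl_compl (i ⁻¹' C), hcompl]; exact (hC'.preimage i.continuous).isOpen_compl
  have key : ∀ {D : Set X} (hD : IsClosed D) (hDo : IsOpen (i ⁻¹' D)), D ⊆ Set.range i → On P X D →
      P (⟨i ⁻¹' D, hDo⟩ : Z.Opens) := by
    intro D hD hDo hDr hPD
    obtain ⟨B, b, hb, hbD⟩ := exists_closed (hD.preimage i.continuous)
    have hB := hZ.of_closed b hb
    have hPB : P B := by
      refine hPD B (b ≫ i) inferInstance ?_
      have h1 : Set.range (b ≫ i) = i '' Set.range b := by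
        rw [← Set.range_comp]; rfl
      rw [h1, hbD, Set.image_preimage_eq_inter_range]
      exact Set.inter_eq_left.2 hDr
    let O : Z.Opens := ⟨i ⁻¹' D, hDo⟩
    have hO : Set.range O.ι = i ⁻¹' D := Scheme.Opens.range_ι O
    have h1 : Function.Surjective (pullback.fst b O.ι) := by
      rw [← Set.range_eq_univ, Scheme.Pullback.range_fst, hO, ← hbD, Set.preimage_range]
    have h2 : Function.Surjective (pullback.snd b O.ι) := by
      rw [← Set.range_eq_univ, Scheme.Pullback.range_snd, hbD, ← hO, Set.preimage_range]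
    have h3 := isIso_of (pullback.fst b O.ι) inferInstance h1
    have h4 : P (pullback b O.ι) := (Inv.iso hP.inv hB _ h3).2 hPB
    exact (hP.inv (pullback.snd b O.ι) (hZ.of_open O.ι inferInstance) inferInstance h2).1 h4
  let O : Z.Opens := ⟨i ⁻¹' C, ho⟩
  let O' : Z.Opens := ⟨i ⁻¹' C', ho'⟩
  refine hP.add O.ι O'.ι inferInstance inferInstance hZ ?_
    (key hC ho (hr ▸ Set.subset_union_left) h) (key hC' ho' (hr ▸ Set.subset_union_right) h')
  rw [Scheme.Opens.range_ι, Scheme.Opens.range_ι]
  change IsCompl (i ⁻¹' C) (i ⁻¹' C')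
  rw [← hcompl]
  exact isCompl_compl

/-- a property of a disjoint union of closed subsets -/
theorem Add.on_iUnion {P : Scheme.{0} → Prop} (hP : Add P) {X : Scheme.{0}} (hX : FiniteType X) {n : ℕ}
    (C : _root_.Fin n → Set X) (hC : ∀ k, IsClosed (C k)) (hd : Pairwise fun k l => Disjoint (C k) (C l))
    (h : ∀ k, On P X (C k)) : On P X (⋃ k, C k) := by
  classical
  have key : ∀ S : Finset (_root_.Fin n), On P X (⋃ k ∈ S, C k) := by
    intro S
    induction S using Finset.induction_on with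
    | empty =>
      intro Z i _ hr
      refine hP.empty Z ⟨fun z => ?_⟩
      have h1 : i z ∈ ⋃ k ∈ (∅ : Finset (_root_.Fin n)), C k := by
        rw [← hr]; exact Set.mem_range_self z
      simp at h1
    | insert s S hs ih =>
      rw [Finset.set_biUnion_insert]
      refine hP.on_disjoint hX (hC s) (S.finite_toSet.isClosed_biUnion fun k _ => hC k) ?_ (h s) ih
      simp only [Set.disjoint_iUnion_right]
      exact fun k hk => hd fun h1 => hs (h1 ▸ hk)
  simpa using key Finset.univ

theorem Pieces.isClosed {X : Scheme.{0}} {C : Set X} {e : ℤ} (h : Pieces X C e) : IsClosed C := by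
  obtain ⟨n, Z, i, hi, -, rfl⟩ := h
  refine isClosed_iUnion_of_finite fun k => ?_
  have := (hi k).1
  exact (i k).isClosedEmbedding.isClosed_range

/-- a property of a disjoint union of regular schemes -/
theorem Add.on_pieces {P : Scheme.{0} → Prop} (hP : Add P) {X : Scheme.{0}} (hX : FiniteType X) {C : Set X} {e : ℤ}
    (hC : Pieces X C e) (h : ∀ (Z : Scheme.{0}) (_ : Z ⟶ X) (d : ℕ), (d : ℤ) = e → Arithmetic Z d → P Z) :
    On P X C := by
  obtain ⟨n, Z, i, hi, hd, rfl⟩ := hC
  refine hP.on_iUnion hX (fun k => Set.range (i k)) (fun k => ?_) hd fun k => ?_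
  · have := (hi k).1
    exact (i k).isClosedEmbedding.isClosed_range
  · obtain ⟨h1, d, hd, hZ⟩ := hi k
    exact on_of hP.inv hX (i k) h1 (h (Z k) (i k) d hd hZ) rfl

/-- a property of an open subset of a disjoint union of regular schemes -/
theorem Add.on_pieces_open {P : Scheme.{0} → Prop} (hP : Add P) {X : Scheme.{0}} (hX : FiniteType X) {C : Set X}
    {e : ℤ} (hC : Pieces X C e) (U : X.Opens)
    (h : ∀ (Z : Scheme.{0}) (i : Z ⟶ X) (d : ℕ), IsClosedImmersion i → (d : ℤ) = e → Arithmetic Z d →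
      P (i ⁻¹ᵁ U : Z.Opens)) : On P U (U.ι ⁻¹' C) := by
  obtain ⟨n, Z, i, hi, hd, rfl⟩ := hC
  rw [Set.preimage_iUnion]
  refine hP.on_iUnion (hX.of_open U.ι inferInstance) (fun k => U.ι ⁻¹' Set.range (i k)) (fun k => ?_)
    (fun k l hkl => Disjoint.preimage _ (hd hkl)) fun k => ?_
  · have := (hi k).1
    exact (i k).isClosedEmbedding.isClosed_range.preimage U.ι.continuous
  · obtain ⟨h1, d, hd, hZ⟩ := hi k
    have hZf := hX.of_closed (i k) h1
    have h2 := h (Z k) (i k) d h1 hd hZ
    have h3 : Set.range (pullback.fst (i k) U.ι) = Set.range (i k ⁻¹ᵁ U).ι := by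
      rw [Scheme.Pullback.range_fst, Scheme.Opens.range_ι, Scheme.Opens.range_ι]
      rfl
    let E := IsOpenImmersion.isoOfRangeEq (pullback.fst (i k) U.ι) (i k ⁻¹ᵁ U).ι h3
    have h4 : P (pullback (i k) U.ι) := (Inv.iso hP.inv (hZf.of_open (i k ⁻¹ᵁ U).ι inferInstance) E.hom inferInstance).2 h2
    refine on_of hP.inv (hX.of_open U.ι inferInstance) (pullback.snd (i k) U.ι) inferInstance h4 ?_
    rw [Scheme.Pullback.range_snd]

end Pool.Agent.Helper83.OD
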