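import Pool.Agent.Helper83.OD.Step

/-! # The inductive step in positive characteristic -/

set_option autoImplicit false

open CategoryTheory CategoryTheory.Limits AlgebraicGeometry TopologicalSpace Topology

namespace Pool.Agent.Helper83.OD

open Pool.Agent.Helper83.AS (FiniteType Arithmetic product finite_mid finite_of_transfer)

universe v

variable {T : Theory.{v}} (hT : T.Standard)

theorem Positive.of_hom {X Y : Scheme.{0}} (h : Positive X) (f : Y ⟶ X) : Positive Y := by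
  obtain ⟨p, hp, ⟨g⟩⟩ := h
  exact ⟨p, hp, ⟨f ≫ g⟩⟩

include hT

/-- the complement of the ample divisor in a component of a stratum -/
theorem tors_component (hF : T.FiniteFields) {X' C : Scheme.{0}} {e : ℕ} (hC : Arithmetic C e) (hp : Positive C)
    {i : C ⟶ X'} {Y : Set X'} (hY : Meets i Y e) {U : X'.Opens} (hUY : (U : Set X') = Yᶜ)
    {j : ℤ} (ih : ∀ e' ≤ e, ∀ q : ℤ, 1 ≤ q → q ≤ j → q + 1 ≤ e' → ∀ Z : Scheme.{0}, Arithmetic Z e' →
      Positive Z → T.Tors q Z)
    {q : ℤ} (hqj : q ≤ j) (hq : q + 1 ≤ e) : T.Tors q (i ⁻¹ᵁ U) := by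
  have hCf := hC.finiteType
  have hUf : FiniteType (i ⁻¹ᵁ U) := hCf.of_open (i ⁻¹ᵁ U).ι inferInstance
  have hU : ((i ⁻¹ᵁ U : C.Opens) : Set C) = (i ⁻¹' Y)ᶜ := by
    change i ⁻¹' (U : Set X') = _
    rw [hUY, Set.preimage_compl]
  rcases lt_trichotomy q 0 with hq0 | rfl | hq0
  · exact hT.top hUf q hq0
  · refine hF.tors_zero hC hp _ ?_
    -- `Y` meets `C`
    have h1 : (i ⁻¹' Y).Nonempty := by
      rcases Nat.lt_or_ge 1 e with h | h
      · obtain ⟨D, a, ha, hD, har⟩ := hY.higher (e - 1) (by omega) (by omega)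
        have := hD.integral
        have har' : Set.range a = i ⁻¹' Y := har
        rw [← har']
        exact Set.range_nonempty a
      · exact hY.curve (by omega)
    intro h2
    obtain ⟨x, hx⟩ := h1
    have h3 : x ∈ ((i ⁻¹ᵁ U : C.Opens) : Set C) := by rw [h2]; trivial
    rw [hU] at h3
    exact h3 hx
  · obtain ⟨D, a, ha, hD, har⟩ := hY.higher (e - 1) (by omega) (by omega)
    have har' : Set.range a = i ⁻¹' Y := har
    have hc : IsCompl (Set.range a) (Set.range (i ⁻¹ᵁ U).ι) := by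
      rw [har', Scheme.Opens.range_ι, hU]
      exact isCompl_compl
    have h1 : T.Tors q C := ih e le_rfl q (by omega) hqj hq C hC hp
    rcases eq_or_lt_of_le (show 1 ≤ q by omega) with rfl | hq1
    · intro y
      obtain ⟨N, hN, x, hx⟩ := hF.extend a (i ⁻¹ᵁ U).ι hC hp hD ha hc y
      obtain ⟨M, hM, hMx⟩ := h1 x
      refine ⟨N * M, Nat.mul_pos hN hM, ?_⟩
      rw [mul_nsmul, hx, ← map_nsmul, hMx, map_zero]
    · refine (tors_long hT).right a (i ⁻¹ᵁ U).ι hCf ha inferInstance hc q h1 ?_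
      exact ih (e - 1) (by omega) (q - 1) (by omega) (by omega) (by omega) D hD (hp.of_hom a)

/-- **The inductive step in positive characteristic.** -/
theorem tors_step (hF : T.FiniteFields) (hG : Geometry) {X : Scheme.{0}} {d : ℕ} (hX : Arithmetic X d)
    (hp : Positive X)
    {j : ℤ} (ih : ∀ e < d, ∀ q : ℤ, 1 ≤ q → q ≤ j → q + 1 ≤ e → ∀ Z : Scheme.{0}, Arithmetic Z e →
      Positive Z → T.Tors q Z)
    (hj1 : 1 ≤ j) (hj : j + 2 ≤ d) : T.Tors j X := by
  intro x
  obtain ⟨M, hM, V, hV, hx⟩ := hT.generic hX j (by omega) x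
  obtain ⟨X', f, r, E, Y, h⟩ := hG.resolutionP hX hp (V : Set X)ᶜ V.isOpen.isClosed_compl (by
    intro h1
    obtain ⟨x, hx⟩ := hV
    have h2 : x ∈ ((V : Set X))ᶜ := h1 ▸ Set.mem_univ x
    exact h2 hx)
  have hX' : FiniteType X' := h.arithmetic.finiteType
  have hp' : Positive X' := hp.of_hom f
  obtain ⟨N, pull, push, hN, hpp⟩ := hT.alteration f hX h.arithmetic h.surjective j
  -- the open complements
  let O : X'.Opens := ⟨(⋃ k, E k)ᶜ, (isClosed_iUnion_of_finite h.closed).isOpen_compl⟩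
  have hOV : O ≤ f ⁻¹ᵁ V := by
    intro x hx
    by_contra h1
    exact hx (h.subset h1)
  have hYcl : IsClosed Y := h.divisor.isClosed
  let U : X'.Opens := ⟨Yᶜ, hYcl.isOpen_compl⟩
  have hUY : (U : Set X') = Yᶜ := rfl
  have hUf : FiniteType U := hX'.of_open U.ι inferInstance
  have hOx : T.res O.ι j (pull (M • x)) = 0 := by
    exact res_eq_zero hT hOV ((hpp (M • x)).2 V hx)
  -- the normal crossings divisor in `U`
  have h1 : On (T.Tors j) U (⋃ k, U.ι ⁻¹' E k) := by
    refine on_iUnion (tors_long hT) hUf (fun k => U.ι ⁻¹' E k) (fun k => (h.closed k).preimage U.ι.continuous)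
      (d - 1) j (fun I hI q hqj hq => ?_) (by omega)
    have hcard : 0 < I.card := hI.card_pos
    have h2 : (⋂ k ∈ I, U.ι ⁻¹' E k) = U.ι ⁻¹' ⋂ k ∈ I, E k := by
      simp only [Set.preimage_iInter]
    obtain ⟨n, C, i, hi, hd, hEI⟩ := h.strata I hI
    rw [h2, hEI, Set.preimage_iUnion]
    refine (tors_add hT q).on_iUnion hUf (fun k => U.ι ⁻¹' Set.range (i k)) (fun k => ?_)
      (fun k l hkl => Disjoint.preimage _ (hd hkl)) fun k => ?_
    · have := (hi k).1
      exact (i k).isClosedEmbedding.isClosed_range.preimage U.ι.continuous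
    · obtain ⟨h3, e, he, hC, hm⟩ := hi k
      have hZf := hX'.of_closed (i k) h3
      have h4 : T.Tors q (i k ⁻¹ᵁ U) := tors_component hT hF hC (hp'.of_hom (i k)) hm hUY
        (fun e' he' => ih e' (by omega)) hqj (by omega)
      have h5 : Set.range (pullback.fst (i k) U.ι) = Set.range (i k ⁻¹ᵁ U).ι := by
        rw [Scheme.Pullback.range_fst, Scheme.Opens.range_ι, Scheme.Opens.range_ι]
        rfl
      let F := IsOpenImmersion.isoOfRangeEq (pullback.fst (i k) U.ι) (i k ⁻¹ᵁ U).ι h5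
      have h6 : T.Tors q (pullback (i k) U.ι) :=
        (Inv.iso (tors_add hT q).inv (hZf.of_open (i k ⁻¹ᵁ U).ι inferInstance) F.hom inferInstance).2 h4
      refine on_of (tors_add hT q).inv hUf (pullback.snd (i k) U.ι) inferInstance h6 ?_
      rw [Scheme.Pullback.range_snd]
  -- the restriction to `U` is torsion
  obtain ⟨D, b, hb, hbE⟩ := exists_closed (X := U) (C := ⋃ k, U.ι ⁻¹' E k)
    (isClosed_iUnion_of_finite fun k => (h.closed k).preimage U.ι.continuous)
  have hc' : IsCompl (Set.range b) (Set.range (U.ι ⁻¹ᵁ O).ι) := by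
    rw [hbE, Scheme.Opens.range_ι]
    have h6 : ((U.ι ⁻¹ᵁ O : U.toScheme.Opens) : Set U) = (⋃ k, U.ι ⁻¹' E k)ᶜ := by
      change U.ι ⁻¹' (O : Set X') = _
      have h7 : (O : Set X') = (⋃ k, E k)ᶜ := rfl
      rw [h7, Set.preimage_compl, Set.preimage_iUnion]
    rw [h6]
    exact isCompl_compl
  obtain ⟨push', δ', hex'⟩ := hT.localization b (U.ι ⁻¹ᵁ O).ι hUf hb hc'
  obtain ⟨y, hy⟩ := ((hex' j).1 _).1 (res_res_eq_zero hT (U := U) hOx)
  obtain ⟨K, hK, hKy⟩ := h1 D b hb hbE y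
  have h2 : T.res U.ι j (K • pull (M • x)) = 0 := by
    rw [map_nsmul, ← hy, ← map_nsmul, hKy, map_zero]
  -- so a multiple comes from `Y`
  obtain ⟨R, a, ha, haY⟩ := exists_closed hYcl
  have hR : T.Tors j R := (tors_add hT j).on_pieces hX' h.divisor (fun Z g e he hZ =>
    ih e (by omega) j hj1 le_rfl (by omega) Z hZ (hp'.of_hom g)) R a ha haY
  have hc : IsCompl (Set.range a) (Set.range U.ι) := by
    rw [haY, Scheme.Opens.range_ι, hUY]
    exact isCompl_compl
  obtain ⟨push₁, δ, hex⟩ := hT.localization a U.ι hX' ha hc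
  obtain ⟨w, hw⟩ := ((hex j).1 _).1 h2
  obtain ⟨L, hL, hLw⟩ := hR w
  refine ⟨(L * K) * (N * M), by positivity, ?_⟩
  have h3 : (L * K) • pull (M • x) = 0 := by
    rw [mul_nsmul', ← hw, ← map_nsmul, hLw, map_zero]
  have h4 : N • (M • x) = push (pull (M • x)) := (hpp _).1.symm
  rw [mul_nsmul' x (L * K), mul_nsmul' x N, h4, ← map_nsmul, h3, map_zero]

end Pool.Agent.Helper83.OD
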