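import Pool.Agent.Helper83.OD.Defs
import Pool.Agent.Helper83.AS.Dev

/-! # Properties of closed subsets -/

set_option autoImplicit false

open CategoryTheory CategoryTheory.Limits AlgebraicGeometry TopologicalSpace Topology

namespace Pool.Agent.Helper83.OD

open Pool.Agent.Helper83.AS (FiniteType Arithmetic product)

/-- the property `P` holds for the closed subschemes of `X` with underlying set `C` -/
def On (P : Scheme.{0} → Prop) (X : Scheme.{0}) (C : Set X) : Prop :=
  ∀ (Z : Scheme.{0}) (i : Z ⟶ X), IsClosedImmersion i → Set.range i = C → P Z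

/-- `P` does not depend on the nilpotents -/
def Inv (P : Scheme.{0} → Prop) : Prop :=
  ∀ {X Z : Scheme.{0}} (i : Z ⟶ X), FiniteType X → IsClosedImmersion i → Function.Surjective i → (P Z ↔ P X)

/-- a family of properties compatible with the localization sequences -/
structure Long (P : ℤ → Scheme.{0} → Prop) : Prop where
  empty : ∀ (q : ℤ) (X : Scheme.{0}), IsEmpty X → P q X
  left : ∀ {X Z U : Scheme.{0}} (i : Z ⟶ X) (u : U ⟶ X), FiniteType X → IsClosedImmersion i →
    IsOpenImmersion u → IsCompl (Set.range i) (Set.range u) → ∀ q, P (q + 1) U → P q X → P q Z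
  mid : ∀ {X Z U : Scheme.{0}} (i : Z ⟶ X) (u : U ⟶ X), FiniteType X → IsClosedImmersion i →
    IsOpenImmersion u → IsCompl (Set.range i) (Set.range u) → ∀ q, P q Z → P q U → P q X
  right : ∀ {X Z U : Scheme.{0}} (i : Z ⟶ X) (u : U ⟶ X), FiniteType X → IsClosedImmersion i →
    IsOpenImmersion u → IsCompl (Set.range i) (Set.range u) → ∀ q, P q X → P (q - 1) Z → P q U

theorem exists_closed {X : Scheme.{0}} {C : Set X} (hC : IsClosed C) :
    ∃ (Z : Scheme.{0}) (i : Z ⟶ X), IsClosedImmersion i ∧ Set.range i = C :=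
  ⟨_, (Scheme.IdealSheafData.vanishingIdeal ⟨C, hC⟩).subschemeι, inferInstance, by
    rw [Scheme.IdealSheafData.range_subschemeι]; rfl⟩

theorem Long.inv {P : ℤ → Scheme.{0} → Prop} (hP : Long P) (q : ℤ) : Inv (P q) := by
  intro X Z i hX hi hs
  have hc : IsCompl (Set.range i) (Set.range (⊥ : X.Opens).ι) := by
    rw [hs.range_eq, Scheme.Opens.range_ι]
    exact isCompl_top_bot
  have hE : IsEmpty ((⊥ : X.Opens) : Scheme.{0}) := ⟨fun x => x.2⟩
  exact ⟨fun h => hP.mid i (⊥ : X.Opens).ι hX hi inferInstance hc q h (hP.empty q _ hE),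
    fun h => hP.left i (⊥ : X.Opens).ι hX hi inferInstance hc q (hP.empty _ _ hE) h⟩

theorem on_of {P : Scheme.{0} → Prop} (hP : Inv P) {X Z : Scheme.{0}} (hX : FiniteType X) (i : Z ⟶ X)
    (hi : IsClosedImmersion i) (h : P Z) {C : Set X} (hC : Set.range i = C) : On P X C := by
  subst hC
  intro Z' i' hi' hr
  have h1 : Function.Surjective (pullback.fst i i') := by
    rw [← Set.range_eq_univ, Scheme.Pullback.range_fst, hr, Set.preimage_range]
  have h2 : Function.Surjective (pullback.snd i i') := by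
    rw [← Set.range_eq_univ, Scheme.Pullback.range_snd, ← hr, Set.preimage_range]
  have h3 : P (pullback i i') := (hP (pullback.fst i i') (hX.of_closed i hi) inferInstance h1).2 h
  exact (hP (pullback.snd i i') (hX.of_closed i' hi') inferInstance h2).1 h3

theorem on_union {P : ℤ → Scheme.{0} → Prop} (hP : Long P) {X : Scheme.{0}} (hX : FiniteType X) {C C' : Set X}
    (hC : IsClosed C) (hC' : IsClosed C') {q : ℤ} (h : On (P q) X C) (h' : On (P q) X C')
    (h'' : On (P (q - 1)) X (C ∩ C')) : On (P q) X (C ∪ C') := by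
  intro Z i hi hr
  have hZ := hX.of_closed i hi
  obtain ⟨A, a, ha, haC⟩ := exists_closed (hC'.preimage i.continuous)
  obtain ⟨B, b, hb, hbC⟩ := exists_closed (hC.preimage i.continuous)
  have hB := hZ.of_closed b hb
  have range_comp : ∀ {Z Y W : Scheme.{0}} (f : Z ⟶ Y) (g : Y ⟶ W), Set.range (f ≫ g) = g '' Set.range f := by
    intro Z Y W f g
    rw [← Set.range_comp]
    rfl
  have hPA : P q A := by
    refine h' A (a ≫ i) inferInstance ?_
    rw [range_comp, haC, Set.image_preimage_eq_inter_range, hr]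
    exact Set.inter_eq_left.2 Set.subset_union_right
  have hPB : P q B := by
    refine h B (b ≫ i) inferInstance ?_
    rw [range_comp, hbC, Set.image_preimage_eq_inter_range, hr]
    exact Set.inter_eq_left.2 Set.subset_union_left
  let O : Z.Opens := ⟨(i ⁻¹' C')ᶜ, (hC'.preimage i.continuous).isOpen_compl⟩
  have hO : Set.range O.ι = (i ⁻¹' C')ᶜ := Scheme.Opens.range_ι O
  have hcO : IsCompl (Set.range a) (Set.range O.ι) := by
    rw [haC, hO]
    exact isCompl_compl
  have hW1 : Set.range (pullback.fst b O.ι) = b ⁻¹' (i ⁻¹' C')ᶜ := by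
    rw [Scheme.Pullback.range_fst, hO]
  have hW2 : Function.Surjective (pullback.snd b O.ι) := by
    rw [← Set.range_eq_univ, Scheme.Pullback.range_snd, hbC, Set.eq_univ_iff_forall]
    intro z
    have h1 : O.ι z ∈ (i ⁻¹' C')ᶜ := by rw [← hO]; exact Set.mem_range_self z
    have h2 : i (O.ι z) ∈ C ∪ C' := by rw [← hr]; exact Set.mem_range_self _
    exact h2.resolve_right h1
  obtain ⟨D, e, he, heC⟩ := exists_closed ((hC'.preimage i.continuous).preimage b.continuous)
  have hPD : P (q - 1) D := by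
    refine h'' D (e ≫ b ≫ i) inferInstance ?_
    have h1 : Set.range (e ≫ b ≫ i) = i '' (b '' Set.range e) := by
      rw [← Set.image_comp, ← Set.range_comp]
      rfl
    rw [h1, heC, Set.image_preimage_eq_inter_range, hbC, ← Set.preimage_inter,
      Set.image_preimage_eq_inter_range, hr, Set.inter_comm C' C]
    exact Set.inter_eq_left.2 fun x hx => Or.inl hx.1
  have hPW : P q (pullback b O.ι) := by
    refine hP.right e (pullback.fst b O.ι) hB he inferInstance ?_ q hPB hPD
    rw [heC, hW1]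
    exact isCompl_compl
  have hPO : P q O :=
    (hP.inv q (pullback.snd b O.ι) (hZ.of_open O.ι inferInstance) inferInstance hW2).1 hPW
  exact hP.mid a O.ι hZ ha inferInstance hcO q hPA hPO

/-- the union of the strata of codimension one in a stratum -/
theorem on_strata {P : ℤ → Scheme.{0} → Prop} (hP : Long P) {X : Scheme.{0}} (hX : FiniteType X) {r : ℕ}
    (E : _root_.Fin r → Set X) (hE : ∀ k, IsClosed (E k)) (N j : ℤ)
    (h : ∀ I : Finset (_root_.Fin r), I.Nonempty → ∀ q : ℤ, q ≤ j → q + I.card ≤ N → On (P q) X (⋂ k ∈ I, E k))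
    (S : Finset (_root_.Fin r)) : ∀ I : Finset (_root_.Fin r), Disjoint I S → ∀ q : ℤ, q ≤ j →
    q + I.card + 1 ≤ N → On (P q) X ((⋂ k ∈ I, E k) ∩ ⋃ k ∈ S, E k) := by
  classical
  have hI : ∀ I : Finset (_root_.Fin r), IsClosed (⋂ k ∈ I, E k) := fun I =>
    isClosed_biInter fun k _ => hE k
  have hS : ∀ S : Finset (_root_.Fin r), IsClosed (⋃ k ∈ S, E k) := fun S =>
    S.finite_toSet.isClosed_biUnion fun k _ => hE k
  induction S using Finset.induction_on with
  | empty =>
    intro I _ q _ _ Z i _ hr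
    refine hP.empty q Z ⟨fun z => ?_⟩
    have h1 : i z ∈ (⋂ k ∈ I, E k) ∩ ⋃ k ∈ (∅ : Finset (_root_.Fin r)), E k := by
      rw [← hr]; exact Set.mem_range_self z
    simp at h1
  | insert s S hs ih =>
    intro I hd q hqj hq
    rw [Finset.disjoint_insert_right] at hd
    have hcard : (insert s I).card = I.card + 1 := Finset.card_insert_of_notMem hd.1
    have h1 : (⋂ k ∈ insert s I, E k) = (⋂ k ∈ I, E k) ∩ E s := by
      rw [Finset.set_biInter_insert, Set.inter_comm]
    have h2 : (⋂ k ∈ I, E k) ∩ ⋃ k ∈ insert s S, E k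
        = ((⋂ k ∈ I, E k) ∩ ⋃ k ∈ S, E k) ∪ (⋂ k ∈ insert s I, E k) := by
      rw [h1, Finset.set_biUnion_insert, Set.union_comm, Set.inter_union_distrib_left]
    have h3 : ((⋂ k ∈ I, E k) ∩ ⋃ k ∈ S, E k) ∩ (⋂ k ∈ insert s I, E k)
        = (⋂ k ∈ insert s I, E k) ∩ ⋃ k ∈ S, E k := by
      rw [h1]
      ext x
      simp only [Set.mem_inter_iff]
      tauto
    rw [h2]
    refine on_union hP hX ((hI I).inter (hS S)) (hI _) (ih I hd.2 q hqj hq)
      (h _ (Finset.insert_nonempty s I) q hqj ?_) ?_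
    · rw [hcard]; push_cast; omega
    · rw [h3]
      refine ih (insert s I) (Finset.disjoint_insert_left.2 ⟨hs, hd.2⟩) (q - 1) (by omega) ?_
      rw [hcard]; push_cast; omega

theorem on_iUnion {P : ℤ → Scheme.{0} → Prop} (hP : Long P) {X : Scheme.{0}} (hX : FiniteType X) {r : ℕ}
    (E : _root_.Fin r → Set X) (hE : ∀ k, IsClosed (E k)) (N j : ℤ)
    (h : ∀ I : Finset (_root_.Fin r), I.Nonempty → ∀ q : ℤ, q ≤ j → q + I.card ≤ N → On (P q) X (⋂ k ∈ I, E k))
    (hj : j + 1 ≤ N) : On (P j) X (⋃ k, E k) := by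
  have h1 := on_strata hP hX E hE N j h Finset.univ ∅ (Finset.disjoint_empty_left _) j le_rfl (by simpa using hj)
  simpa using h1

/-- the complement of a closed subset -/
theorem on_open {P : ℤ → Scheme.{0} → Prop} (hP : Long P) {X : Scheme.{0}} (hX : FiniteType X) {C : Set X}
    (hC : IsClosed C) (U : X.Opens) {q : ℤ} (h : On (P q) X C) (h' : On (P (q - 1)) X (C ∩ (U : Set X)ᶜ)) :
    On (P q) U (U.ι ⁻¹' C) := by
  obtain ⟨R, i, hi, hr⟩ := exists_closed hC
  have hR := hX.of_closed i hi
  obtain ⟨D, e, he, heC⟩ := exists_closed ((U.isOpen.isClosed_compl).preimage i.continuous)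
  have hU : Set.range U.ι = (U : Set X) := Scheme.Opens.range_ι U
  have hc : IsCompl (Set.range e) (Set.range (pullback.fst i U.ι)) := by
    rw [heC, Scheme.Pullback.range_fst, hU, Set.preimage_compl]
    exact isCompl_compl.symm
  have hD : P (q - 1) D := by
    refine h' D (e ≫ i) inferInstance ?_
    have h1 : Set.range (e ≫ i) = i '' Set.range e := by
      rw [← Set.range_comp]; rfl
    rw [h1, heC, Set.image_preimage_eq_inter_range, hr, Set.inter_comm]
  have h2 := hP.right e (pullback.fst i U.ι) hR he inferInstance hc q (h R i hi hr) hD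
  refine on_of (hP.inv q) (hX.of_open U.ι inferInstance) (pullback.snd i U.ι) inferInstance h2 ?_
  rw [Scheme.Pullback.range_snd, hr]

end Pool.Agent.Helper83.OD
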